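import Pool.Agent.X42.QuadForms

/-!
# In characteristic two the Jacobian rank can be smaller than the analytic spread
-/

set_option autoImplicit false

namespace Pool.Agent.Results.MP_188fab_co.CharTwoJacobian

open Pool.Agent.X42.QForms Pool.Agent.X42.Spread

/-- For every field `F` of characteristic two and `G = H = K₃`, the rank of the Jacobian matrix of
the generators of `J_{G,H}` is smaller than the analytic spread of `J_{G,H}`, which is `9`. -/
theorem result : ∀ (F : Type*) [Field F] [CharP F 2],
    analyticSpread (J F (⊤ : SimpleGraph (Fin 3)) (⊤ : SimpleGraph (Fin 3))) = 9 ∧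
    (((jac F (⊤ : SimpleGraph (Fin 3)) (⊤ : SimpleGraph (Fin 3))).rank : ℕ) : WithBot ℕ∞) <
      analyticSpread (J F (⊤ : SimpleGraph (Fin 3)) (⊤ : SimpleGraph (Fin 3))) := by
  intro F _ _
  refine ⟨spread_eq F, ?_⟩
  rw [spread_eq F]
  exact_mod_cast rank_lt F

end Pool.Agent.Results.MP_188fab_co.CharTwoJacobian
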